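import Pool.Agent.N236.UB.Stm

/-!
# Project UB (helper236): affine maps are separated, and compositions of separated polynomials
-/

set_option autoImplicit false

open Polynomial

namespace Pool.Agent.N654.UB

open Pool.Agent.N236.UB

/-- the ultrametric inequality for finite sums -/
lemma v_sum_le {L ι : Type} [Field L] (v : AbsoluteValue L ℝ)
    (hv : ∀ x y : L, v (x + y) ≤ max (v x) (v y)) (s : Finset ι) (f : ι → L) (R : ℝ) (hR : 0 ≤ R)
    (h : ∀ i ∈ s, v (f i) ≤ R) : v (∑ i ∈ s, f i) ≤ R := by
  classical
  induction s using Finset.induction_on with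
  | empty => simpa using hR
  | insert a s ha ih =>
    rw [Finset.sum_insert ha]
    refine (hv _ _).trans (max_le (h a (Finset.mem_insert_self a s)) (ih ?_))
    intro i hi
    exact h i (Finset.mem_insert_of_mem hi)

lemma sep_affine {L : Type} [Field L] (v : AbsoluteValue L ℝ) (a b : L) :
    Sep v (C a * X + C b) := by
  intro x y i hi
  have e : taylor x (C a * X + C b) = C a * X + C (a * x + b) := by
    rw [taylor_apply]
    simp only [add_comp, mul_comp, C_comp, X_comp, C_add, C_mul]
    ring
  rw [e]
  rcases Nat.eq_or_lt_of_le hi with h1 | h1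
  · subst h1
    have h2 : (C a * X + C (a * x + b)).coeff 1 = a := by
      rw [coeff_add, coeff_C_mul, coeff_X_one, coeff_C_of_ne_zero one_ne_zero]
      ring
    rw [h2, pow_one, ← map_mul]
    apply le_of_eq
    congr 1
    simp only [eval_add, eval_mul, eval_C, eval_X]
    ring
  · have h2 : (C a * X + C (a * x + b)).coeff i = 0 := by
      rw [coeff_add, coeff_C_mul, coeff_X, coeff_C, if_neg (by omega), if_neg (by omega)]
      ring
    rw [h2, map_zero, zero_mul]
    exact v.nonneg _

lemma sep_comp {L : Type} [Field L] (v : AbsoluteValue L ℝ)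
    (hv : ∀ x y : L, v (x + y) ≤ max (v x) (v y)) (F G : L[X]) (hF : Sep v F) (hG : Sep v G) :
    Sep v (F.comp G) := by
  intro x y k hk
  obtain ⟨g, hg⟩ : ∃ g, g = G.eval x := ⟨_, rfl⟩
  obtain ⟨H, hH⟩ : ∃ H, H = taylor x G - C g := ⟨_, rfl⟩
  obtain ⟨R, hR⟩ : ∃ R, R = v (G.eval y - G.eval x) := ⟨_, rfl⟩
  have hR0 : 0 ≤ R := by rw [hR]; exact v.nonneg _
  have e : taylor x (F.comp G) = (taylor g F).comp H := by
    rw [taylor_apply, taylor_apply, comp_assoc, comp_assoc]
    congr 1
    rw [add_comp, X_comp, C_comp, hH, taylor_apply]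
    ring
  -- coefficients of `H`
  have hH0 : ∀ j : ℕ, v (H.coeff j) * v (y - x) ^ j ≤ R := by
    intro j
    rcases Nat.eq_zero_or_pos j with h0 | h0
    · subst h0
      have : H.coeff 0 = 0 := by
        rw [hH, coeff_sub, taylor_coeff_zero, coeff_C_zero, hg, sub_self]
      rw [this, map_zero, zero_mul]
      exact hR0
    · have : H.coeff j = (taylor x G).coeff j := by
        rw [hH, coeff_sub, coeff_C_of_ne_zero (by omega), sub_zero]
      rw [this, hR]
      exact hG x y j h0
  -- coefficients of the powers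
  have hHi : ∀ i j : ℕ, v ((H ^ i).coeff j) * v (y - x) ^ j ≤ R ^ i := by
    intro i
    induction i with
    | zero =>
      intro j
      rw [pow_zero, pow_zero, coeff_one]
      rcases Nat.eq_zero_or_pos j with h0 | h0
      · subst h0
        simp
      · rw [if_neg (by omega), map_zero, zero_mul]
        exact zero_le_one
    | succ i ih =>
      intro j
      rw [pow_succ, coeff_mul, ← map_pow, ← map_mul, Finset.sum_mul]
      refine v_sum_le v hv _ _ _ (pow_nonneg hR0 _) ?_
      rintro ⟨s, t⟩ hst
      rw [Finset.HasAntidiagonal.mem_antidiagonal] at hst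
      simp only at hst ⊢
      have e1 : (H ^ i).coeff s * H.coeff t * (y - x) ^ j =
          ((H ^ i).coeff s * (y - x) ^ s) * (H.coeff t * (y - x) ^ t) := by
        rw [← hst, pow_add]
        ring
      rw [e1, map_mul, map_mul, map_mul, map_pow, map_pow, pow_succ]
      exact mul_le_mul (ih s) (hH0 t) (mul_nonneg (v.nonneg _) (pow_nonneg (v.nonneg _) _))
        (pow_nonneg hR0 _)
  rw [e, comp_eq_sum_left, sum_def, finsetSum_coeff, ← map_pow, ← map_mul, Finset.sum_mul]
  refine v_sum_le v hv _ _ _ (v.nonneg _) ?_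
  intro i _
  rw [coeff_C_mul, map_mul, map_mul, map_pow]
  rcases Nat.eq_zero_or_pos i with h0 | h0
  · subst h0
    rw [pow_zero, coeff_one, if_neg (by omega), map_zero, mul_zero, zero_mul]
    exact v.nonneg _
  · have h1 := hF (G.eval x) (G.eval y) i h0
    rw [← hR, ← hg] at h1
    have h2 := hHi i k
    rw [eval_comp, eval_comp, ← hg, mul_assoc]
    refine le_trans ?_ h1
    exact mul_le_mul_of_nonneg_left h2 (v.nonneg _)

theorem t_sepc : S_SEPC := by
  intro L _ v p q e h
  exact ⟨fun a b => sep_affine v a b, fun F G hF hG => sep_comp v h.1 F G hF hG⟩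

end Pool.Agent.N654.UB
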